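import Pool.Agent.Q163.TZ.Nec
import Pool.Agent.Results.MP_0cd67c_ag.ZeroSumPreservers

set_option autoImplicit false

open Polynomial Finset Pool.Agent.H635Z Pool.Agent.Q163.TZ

namespace Pool.Agent.Results.MP_31565c_an.TraceZeroPreservers

/-- The space `V_d` of real polynomials of degree at most `d` whose coefficient of `t ^ (d - 1)`
is zero. -/
def V (d : ℕ) : Submodule ℝ ℝ[X] where
  carrier := {p | p.natDegree ≤ d ∧ p.coeff (d - 1) = 0}
  add_mem' := by
    rintro p q ⟨hp, hp'⟩ ⟨hq, hq'⟩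
    exact ⟨(natDegree_add_le p q).trans (max_le hp hq), by rw [coeff_add, hp', hq', add_zero]⟩
  zero_mem' := ⟨by simp, by simp⟩
  smul_mem' := by
    rintro c p ⟨hp, hp'⟩
    exact ⟨(natDegree_smul_le c p).trans hp, by rw [coeff_smul, hp', smul_zero]⟩

/-- Real-rooted: zero, or all complex zeros are real. -/
def RealRooted (p : ℝ[X]) : Prop := p = 0 ∨ ∀ z : ℂ, aeval z p = 0 → z.im = 0

/-- `T` is diagonal with eigenvalues `c k`: `T (t ^ k) = c k * t ^ k` for `k ≤ d`, `k ≠ d - 1`. -/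
def DiagonalWith {d : ℕ} (T : V d →ₗ[ℝ] V d) (c : ℕ → ℝ) : Prop :=
  ∀ k : ℕ, k ≤ d → k ≠ d - 1 → ∀ m : V d, (m : ℝ[X]) = X ^ k → (T m : ℝ[X]) = C (c k) * X ^ k

/-- `T` preserves real-rootedness on `V_d`. -/
def Preserves {d : ℕ} (T : V d →ₗ[ℝ] V d) : Prop :=
  ∀ p : V d, RealRooted (p : ℝ[X]) → RealRooted (T p : ℝ[X])

/-- The polynomial `q_d = (t - 1) ^ (d - 1) * (t + d - 1)`. -/
noncomputable def qPoly (d : ℕ) : ℝ[X] := (X - 1) ^ (d - 1) * (X + C ((d : ℝ) - 1))

lemma q_mem (d : ℕ) (hd : 2 ≤ d) : qPoly d ∈ V d :=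
  Pool.Agent.Results.MP_0cd67c_ag.ZeroSumPreservers.g0_mem d (by omega)

/-- `m` of the zeros of `p` (with multiplicity) are `≥ 0`, or `m` of them are `≤ 0`. -/
def SameSign (m : ℕ) (p : ℝ[X]) : Prop :=
  m ≤ Multiset.card (p.roots.filter (fun x => 0 ≤ x)) ∨
    m ≤ Multiset.card (p.roots.filter (fun x => x ≤ 0))

/-- `m` of the zeros of `p` (with multiplicity) are `> 0`, or `m` of them are `< 0`. -/
def StrictSameSign (m : ℕ) (p : ℝ[X]) : Prop :=
  m ≤ Multiset.card (p.roots.filter (fun x => 0 < x)) ∨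
    m ≤ Multiset.card (p.roots.filter (fun x => x < 0))

lemma q_coeff (d : ℕ) (hd : 2 ≤ d) (k : ℕ) (hk : k ≤ d) : (qPoly d).coeff k =
    (1 - ((d - k : ℕ) : ℝ)) * ((-1) ^ (d - k) * (d.choose (d - k) : ℝ)) := by
  have h := Pool.Agent.Results.MP_0cd67c_ag.ZeroSumPreservers.reflect_g0_coeff d (by omega) (d - k)
  rw [coeff_reflect, revAt_le (by omega), show d - (d - k) = k by omega] at h
  exact h

lemma q_coeff_ne (d : ℕ) (hd : 2 ≤ d) (k : ℕ) (hk : k ≤ d) (hk1 : k ≠ d - 1) :
    (qPoly d).coeff k ≠ 0 := by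
  rw [q_coeff d hd k hk]
  apply mul_ne_zero
  · intro h
    have h1 : ((d - k : ℕ) : ℝ) = 1 := by linarith
    have h2 : d - k = 1 := by exact_mod_cast h1
    omega
  · apply mul_ne_zero
    · exact pow_ne_zero _ (by norm_num)
    · exact_mod_cast (Nat.choose_pos (by omega)).ne'

lemma q_coeff_pos (d : ℕ) (hd : 2 ≤ d) (k : ℕ) (hk : k + 2 ≤ d - 2) :
    0 < (qPoly d).coeff k * (qPoly d).coeff (k + 2) := by
  rw [q_coeff d hd k (by omega), q_coeff d hd (k + 2) (by omega)]
  obtain ⟨j, hj⟩ : ∃ j, d = k + 4 + j := ⟨d - (k + 4), by omega⟩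
  have e1 : d - k = j + 4 := by omega
  have e2 : d - (k + 2) = j + 2 := by omega
  rw [e1, e2]
  have c1 : (0 : ℝ) < (d.choose (j + 4) : ℝ) := by exact_mod_cast Nat.choose_pos (by omega)
  have c2 : (0 : ℝ) < (d.choose (j + 2) : ℝ) := by exact_mod_cast Nat.choose_pos (by omega)
  have c3 : ((-1 : ℝ)) ^ (j + 4) * (-1) ^ (j + 2) = 1 := by
    rw [← pow_add]
    apply Even.neg_one_pow
    exact ⟨j + 3, by ring⟩
  have e3 : (1 - ((j + 4 : ℕ) : ℝ)) * ((-1) ^ (j + 4) * (d.choose (j + 4) : ℝ)) *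
      ((1 - ((j + 2 : ℕ) : ℝ)) * ((-1) ^ (j + 2) * (d.choose (j + 2) : ℝ))) =
      ((j : ℝ) + 3) * ((j : ℝ) + 1) * ((d.choose (j + 4) : ℝ) * (d.choose (j + 2) : ℝ)) *
        (((-1 : ℝ)) ^ (j + 4) * (-1) ^ (j + 2)) := by
    push_cast; ring
  rw [e3, c3]
  positivity

lemma T_coeff {d : ℕ} (hd : 2 ≤ d) (T : V d →ₗ[ℝ] V d) (c : ℕ → ℝ) (hT : DiagonalWith T c)
    (g : V d) (k : ℕ) : (T g : ℝ[X]).coeff k = c k * (g : ℝ[X]).coeff k := by
  rcases Nat.lt_or_ge d k with h | h
  · rw [coeff_eq_zero_of_natDegree_lt (lt_of_le_of_lt (T g).2.1 h),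
      coeff_eq_zero_of_natDegree_lt (lt_of_le_of_lt g.2.1 h), mul_zero]
  by_cases h1 : k = d - 1
  · rw [h1, (T g).2.2, g.2.2, mul_zero]
  have h2 := Pool.Agent.Results.MP_0cd67c_ag.ZeroSumPreservers.T_coeff (n := d) (d := d)
    (by omega) T (fun i => c (d - i)) (by
      intro i hi hi1 m hm
      rw [if_pos hi]
      exact hT (d - i) (by omega) (by omega) m hm) g (d - k)
  rw [if_pos (by omega), coeff_reflect, coeff_reflect, revAt_le (by omega),
    show d - (d - k) = k by omega] at h2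
  exact h2

lemma rr_iff (p : ℝ[X]) : RealRooted p ↔ p.Splits :=
  Pool.Agent.Results.MP_0cd67c_ag.ZeroSumPreservers.splits_iff_only p

lemma q_splits (d : ℕ) : (qPoly d).Splits := by
  unfold qPoly
  apply Splits.mul
  · apply Splits.pow
    rw [show (X - 1 : ℝ[X]) = X - C 1 by simp]
    exact Splits.X_sub_C 1
  · exact Splits.X_add_C _

/-- diagonal maps -/
noncomputable def diagMap (d : ℕ) (c : ℕ → ℝ) : V d →ₗ[ℝ] V d where
  toFun g := ⟨∑ k ∈ range (d + 1), C (c k * (g : ℝ[X]).coeff k) * X ^ k, by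
    constructor
    · show natDegree _ ≤ d
      apply natDegree_sum_le_of_forall_le
      intro k hk
      refine (natDegree_C_mul_X_pow_le _ _).trans ?_
      rw [mem_range] at hk; omega
    · show coeff _ _ = 0
      rw [finsetSum_coeff]
      apply sum_eq_zero
      intro k _
      rw [coeff_C_mul_X_pow]
      split_ifs with h
      · rw [← h, g.2.2, mul_zero]
      · rfl⟩
  map_add' g h := by
    apply Subtype.ext
    show (∑ k ∈ range (d + 1), C (c k * ((g + h : V d) : ℝ[X]).coeff k) * X ^ k : ℝ[X]) =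
      (∑ k ∈ range (d + 1), C (c k * (g : ℝ[X]).coeff k) * X ^ k : ℝ[X]) +
      ∑ k ∈ range (d + 1), C (c k * (h : ℝ[X]).coeff k) * X ^ k
    rw [← sum_add_distrib]
    apply sum_congr rfl
    intro k _
    rw [Submodule.coe_add, coeff_add, mul_add, C_add, add_mul]
  map_smul' a g := by
    apply Subtype.ext
    show (∑ k ∈ range (d + 1), C (c k * ((a • g : V d) : ℝ[X]).coeff k) * X ^ k : ℝ[X]) =
      a • (∑ k ∈ range (d + 1), C (c k * (g : ℝ[X]).coeff k) * X ^ k : ℝ[X])
    rw [smul_sum]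
    apply sum_congr rfl
    intro k _
    rw [Submodule.coe_smul, coeff_smul, smul_eq_mul, smul_eq_C_mul]
    simp only [C_mul]
    ring

lemma diagMap_coeff (d : ℕ) (c : ℕ → ℝ) (g : V d) (k : ℕ) :
    (diagMap d c g : ℝ[X]).coeff k = c k * (g : ℝ[X]).coeff k := by
  show (∑ k ∈ range (d + 1), C (c k * (g : ℝ[X]).coeff k) * X ^ k : ℝ[X]).coeff k = _
  rw [finsetSum_coeff]
  simp only [coeff_C_mul_X_pow]
  rw [sum_ite_eq]
  split_ifs with h
  · rfl
  · rw [mem_range] at h
    rw [coeff_eq_zero_of_natDegree_lt (lt_of_le_of_lt g.2.1 (by omega)), mul_zero]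

lemma diagMap_diag (d : ℕ) (c : ℕ → ℝ) : DiagonalWith (diagMap d c) c := by
  intro k _ _ m hm
  ext j
  rw [diagMap_coeff, hm, coeff_C_mul_X_pow, coeff_X_pow]
  split_ifs with h
  · rw [h]; ring
  · ring

/-- sufficiency in the nondegenerate case: this is the starting theorem -/
lemma suff_main {d : ℕ} (hd : 2 ≤ d) (T : V d →ₗ[ℝ] V d) (c : ℕ → ℝ) (hT : DiagonalWith T c)
    (h1 : RealRooted (T ⟨qPoly d, q_mem d hd⟩ : ℝ[X]))
    (h2 : SameSign (d - 1) (T ⟨qPoly d, q_mem d hd⟩ : ℝ[X])) : Preserves T := by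
  refine Pool.Agent.Results.MP_0cd67c_ag.ZeroSumPreservers.result d d (by omega) (by omega) T
    ⟨fun i => c (d - i), ?_⟩ h1 h2
  intro i hi hi1 m hm
  rw [if_pos hi]
  exact hT (d - i) (by omega) (by omega) m hm

lemma coeff_lim_mul {ι : Type*} {l : Filter ι} (F G : ι → ℝ[X]) (f g : ℝ[X])
    (hF : ∀ k, Filter.Tendsto (fun i => (F i).coeff k) l (nhds (f.coeff k)))
    (hG : ∀ k, Filter.Tendsto (fun i => (G i).coeff k) l (nhds (g.coeff k))) (k : ℕ) :
    Filter.Tendsto (fun i => (F i * G i).coeff k) l (nhds ((f * g).coeff k)) := by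
  simp only [coeff_mul]
  apply tendsto_finsetSum
  intro x _
  exact (hF _).mul (hG _)

lemma coeff_lim_pow {ι : Type*} {l : Filter ι} (F : ι → ℝ[X]) (f : ℝ[X])
    (hF : ∀ k, Filter.Tendsto (fun i => (F i).coeff k) l (nhds (f.coeff k))) (n : ℕ) :
    ∀ k, Filter.Tendsto (fun i => (F i ^ n).coeff k) l (nhds ((f ^ n).coeff k)) := by
  induction n with
  | zero => intro k; simp only [pow_zero]; exact tendsto_const_nhds
  | succ n ih =>
    intro k
    simp only [pow_succ]
    exact coeff_lim_mul _ _ _ _ ih hF k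

lemma coeff_lim_lin {ι : Type*} {l : Filter ι} (x : ι → ℝ) (hx : Filter.Tendsto x l (nhds 0))
    (k : ℕ) : Filter.Tendsto (fun i => (1 + C (x i) * X : ℝ[X]).coeff k) l
      (nhds ((1 : ℝ[X]).coeff k)) := by
  have h : ∀ t : ℝ, (1 + C t * X : ℝ[X]).coeff k = (1 : ℝ[X]).coeff k + t * (X : ℝ[X]).coeff k := by
    intro t; rw [coeff_add, coeff_C_mul]
  simp only [h]
  have h1 := (hx.mul_const ((X : ℝ[X]).coeff k)).const_add ((1 : ℝ[X]).coeff k)
  simpa using h1

/-- the approximating polynomials in factored form -/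
lemma factored (P : ℝ[X]) (hP : P.Splits) (n : ℕ) (x y : ℝ) (hx : x ≠ 0) (hy : y ≠ 0) :
    P * (1 + C (-x) * X) ^ n * (1 + C y * X) = C (P.leadingCoeff * (-x) ^ n * y) *
      (((P.roots + Multiset.replicate n (1 / x) + {-(1 / y)}) : Multiset ℝ).map
        (fun a => X - C a)).prod := by
  rw [Multiset.map_add, Multiset.map_add, Multiset.prod_add, Multiset.prod_add,
    Multiset.map_replicate, Multiset.prod_replicate, Multiset.map_singleton,
    Multiset.prod_singleton]
  conv_lhs => rw [hP.eq_prod_roots]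
  have e1 : (1 + C (-x) * X : ℝ[X]) = C (-x) * (X - C (1 / x)) := by
    rw [mul_sub, ← C_mul, show -x * (1 / x) = -1 by field_simp]
    simp only [C_neg, C_1]
    ring
  have e2 : (1 + C y * X : ℝ[X]) = C y * (X - C (-(1 / y))) := by
    rw [mul_sub, ← C_mul, show y * -(1 / y) = -1 by field_simp]
    simp only [C_neg, C_1]
    ring
  rw [e1, e2, mul_pow]
  simp only [C_mul, C_pow]
  ring

/-- sufficiency in the degenerate case -/
lemma suff_deg {d : ℕ} (hd : 2 ≤ d) (T : V d →ₗ[ℝ] V d) (c : ℕ → ℝ) (hT : DiagonalWith T c)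
    (hc : c d = 0) (h1 : RealRooted (T ⟨qPoly d, q_mem d hd⟩ : ℝ[X]))
    (h2 : SameSign (T ⟨qPoly d, q_mem d hd⟩ : ℝ[X]).natDegree
      (T ⟨qPoly d, q_mem d hd⟩ : ℝ[X])) : Preserves T := by
  have hTc := T_coeff hd T c hT
  have hPc : ∀ k, (T ⟨qPoly d, q_mem d hd⟩ : ℝ[X]).coeff k = c k * (qPoly d).coeff k :=
    fun k => hTc _ k
  have hPmem := (T ⟨qPoly d, q_mem d hd⟩).2
  revert h1 h2 hPc hPmem
  generalize (T ⟨qPoly d, q_mem d hd⟩ : ℝ[X]) = P
  intro h1 h2 hPc hPmem g hg
  rw [rr_iff] at h1 hg ⊢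
  by_cases hP0 : P = 0
  · have : (T g : ℝ[X]) = 0 := by
      ext k
      rw [hTc]
      by_cases hk : k ≤ d ∧ k ≠ d - 1
      · have h3 := hPc k
        rw [hP0, coeff_zero] at h3
        have h4 := (mul_eq_zero.mp h3.symm).resolve_right (q_coeff_ne d hd k hk.1 hk.2)
        rw [h4]; simp
      · have h4 : (g : ℝ[X]).coeff k = 0 := by
          rcases Nat.lt_or_ge d k with h5 | h5
          · exact coeff_eq_zero_of_natDegree_lt (lt_of_le_of_lt g.2.1 h5)
          · have : k = d - 1 := by by_contra h6; exact hk ⟨h5, h6⟩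
            rw [this]; exact g.2.2
        rw [h4]; simp
    rw [this]; exact Splits.zero
  set D := P.natDegree with hD
  have hlead : P.coeff D ≠ 0 := leadingCoeff_ne_zero.mpr hP0
  have hDd : D + 2 ≤ d := by
    have a1 : D ≤ d := hPmem.1
    have a2 : D ≠ d := by
      intro h; rw [h, hPc, hc, zero_mul] at hlead; exact hlead rfl
    have a3 : D ≠ d - 1 := by
      intro h; rw [h] at hlead; exact hlead hPmem.2
    omega
  have hcard : Multiset.card P.roots = D := by rw [← h1.natDegree_eq_card_roots]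
  obtain ⟨s, hs, hroots⟩ : ∃ s : ℝ, (s = 1 ∨ s = -1) ∧ ∀ r ∈ P.roots, 0 ≤ s * r := by
    rcases h2 with h | h
    · refine ⟨1, Or.inl rfl, ?_⟩
      have e := Multiset.eq_of_le_of_card_le (Multiset.filter_le (fun x => 0 ≤ x) P.roots)
        (by rw [hcard]; exact h)
      intro r hr
      rw [← e] at hr
      have := (Multiset.mem_filter.mp hr).2
      linarith
    · refine ⟨-1, Or.inr rfl, ?_⟩
      have e := Multiset.eq_of_le_of_card_le (Multiset.filter_le (fun x => x ≤ 0) P.roots)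
        (by rw [hcard]; exact h)
      intro r hr
      rw [← e] at hr
      have := (Multiset.mem_filter.mp hr).2
      linarith
  have hss : s * s = 1 := by rcases hs with rfl | rfl <;> norm_num
  set S := P.roots.sum with hS
  have hsS : 0 ≤ s * S := by
    have e : s * S = (P.roots.map (fun r => s * r)).sum := by
      rw [Multiset.sum_map_mul_left, Multiset.map_id']
    rw [e]
    apply Multiset.sum_nonneg
    intro t ht
    obtain ⟨r, hr, rfl⟩ := Multiset.mem_map.mp ht
    exact hroots r hr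
  obtain ⟨n, hn⟩ : ∃ n, d = D + n + 2 := ⟨d - D - 2, by omega⟩
  -- parameters
  let x : ℝ → ℝ := fun ε => s * ε
  let y : ℝ → ℝ := fun ε => (s * ε) / (s * ε * S + (n + 1))
  have hx0 : Filter.Tendsto x (nhdsWithin 0 (Set.Ioi 0)) (nhds 0) := by
    have : Continuous x := by fun_prop
    have h3 := this.tendsto 0
    simp only [x, mul_zero] at h3
    exact h3.mono_left nhdsWithin_le_nhds
  have hy0 : Filter.Tendsto y (nhdsWithin 0 (Set.Ioi 0)) (nhds 0) := by
    have hden : Filter.Tendsto (fun ε => s * ε * S + ((n : ℝ) + 1)) (nhdsWithin 0 (Set.Ioi 0))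
        (nhds ((n : ℝ) + 1)) := by
      have : Continuous (fun ε : ℝ => s * ε * S + ((n : ℝ) + 1)) := by fun_prop
      have h3 := this.tendsto 0
      simp only [mul_zero, zero_mul, zero_add] at h3
      exact h3.mono_left nhdsWithin_le_nhds
    have h4 := hx0.div hden (by positivity)
    rw [zero_div] at h4
    exact h4
  let F : ℝ → ℝ[X] := fun ε => P * (1 + C (-(x ε)) * X) ^ (n + 1) * (1 + C (y ε) * X)
  have hF : ∀ k, Filter.Tendsto (fun ε => (F ε).coeff k) (nhdsWithin 0 (Set.Ioi 0))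
      (nhds (P.coeff k)) := by
    intro k
    have h3 := coeff_lim_mul (l := nhdsWithin 0 (Set.Ioi 0)) (fun ε => P * (1 + C (-(x ε)) * X) ^ (n + 1))
      (fun ε => 1 + C (y ε) * X) (P * 1 ^ (n + 1)) 1
      (coeff_lim_mul _ _ _ _ (fun k => tendsto_const_nhds)
        (coeff_lim_pow _ _ (coeff_lim_lin (fun ε => -(x ε)) (by simpa using hx0.neg)) (n + 1)))
      (coeff_lim_lin _ hy0) k
    rw [one_pow, mul_one, mul_one] at h3
    exact h3
  have hFε : ∀ ε : ℝ, 0 < ε → (F ε).natDegree ≤ d ∧ (F ε).coeff (d - 1) = 0 ∧ (F ε).Splits ∧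
      SameSign (d - 1) (F ε) := by
    intro ε hε
    have hx : x ε ≠ 0 := by
      intro h
      have h3 : s * (s * ε) = 0 := by
        have : s * ε = 0 := h
        rw [this, mul_zero]
      rw [← mul_assoc, hss, one_mul] at h3
      exact hε.ne' h3
    have hden : 0 < s * ε * S + ((n : ℝ) + 1) := by
      have : 0 ≤ ε * (s * S) := mul_nonneg hε.le hsS
      nlinarith [Nat.cast_nonneg (α := ℝ) n]
    have hy : y ε ≠ 0 := div_ne_zero hx hden.ne'
    have hyi : 1 / y ε = S + (n + 1) / x ε := by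
      show 1 / ((s * ε) / (s * ε * S + (n + 1))) = S + (n + 1) / (s * ε)
      have hx' : s * ε ≠ 0 := hx
      rw [one_div_div, add_div, mul_div_assoc, mul_comm (s * ε) (S / (s * ε)),
        div_mul_cancel₀ _ hx']
    set M : Multiset ℝ := P.roots + Multiset.replicate (n + 1) (1 / x ε) + {-(1 / y ε)} with hM
    have hfac : F ε = C (P.leadingCoeff * (-(x ε)) ^ (n + 1) * y ε) *
        (M.map (fun a => X - C a)).prod := factored P h1 (n + 1) (x ε) (y ε) hx hy
    have ha : P.leadingCoeff * (-(x ε)) ^ (n + 1) * y ε ≠ 0 :=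
      mul_ne_zero (mul_ne_zero hlead (pow_ne_zero _ (neg_ne_zero.mpr hx))) hy
    have hMcard : Multiset.card M = d := by
      rw [hM, Multiset.card_add, Multiset.card_add, Multiset.card_replicate,
        Multiset.card_singleton, hcard]
      omega
    have hMsum : M.sum = 0 := by
      rw [hM, Multiset.sum_add, Multiset.sum_add, Multiset.sum_replicate, Multiset.sum_singleton,
        hyi, nsmul_eq_mul]
      push_cast
      rw [← hS]
      ring
    have hnd : (F ε).natDegree = d := by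
      rw [hfac, natDegree_C_mul ha, natDegree_multiset_prod_X_sub_C_eq_card, hMcard]
    have hrts : (F ε).roots = M := by
      rw [hfac, roots_C_mul _ ha, roots_multiset_prod_X_sub_C]
    refine ⟨hnd.le, ?_, ?_, ?_⟩
    · have h3 : (F ε).nextCoeff = 0 := by
        rw [hfac, nextCoeff_C_mul, multiset_prod_X_sub_C_nextCoeff, hMsum]
        simp
      rw [nextCoeff_of_natDegree_pos (by omega), hnd] at h3
      exact h3
    · rw [hfac]
      apply Splits.C_mul
      apply Splits.multisetProd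
      intro f hf
      obtain ⟨r, _, rfl⟩ := Multiset.mem_map.mp hf
      exact Splits.X_sub_C r
    · have hxpos : 0 ≤ s * (1 / x ε) := by
        show 0 ≤ s * (1 / (s * ε))
        have : s * (1 / (s * ε)) = 1 / ε := by
          rcases hs with rfl | rfl
          · ring
          · have := hε.ne'
            field_simp
        rw [this]; positivity
      unfold SameSign
      rw [hrts]
      have hsub : d - 1 ≤ Multiset.card (M.filter (fun t => 0 ≤ s * t)) := by
        rw [hM, Multiset.filter_add, Multiset.filter_add, Multiset.card_add, Multiset.card_add,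
          Multiset.filter_eq_self.mpr hroots, Multiset.filter_eq_self.mpr (by
            intro t ht
            rw [Multiset.eq_of_mem_replicate ht]; exact hxpos), Multiset.card_replicate, hcard]
        omega
      rcases hs with rfl | rfl
      · left
        refine hsub.trans (le_of_eq ?_)
        congr 1
        apply Multiset.filter_congr
        intro t _
        rw [one_mul]
      · right
        refine hsub.trans (le_of_eq ?_)
        congr 1
        apply Multiset.filter_congr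
        intro t _
        constructor <;> intro h <;> linarith
  let Tε : ℝ → (V d →ₗ[ℝ] V d) := fun ε => diagMap d (fun k => (F ε).coeff k / (qPoly d).coeff k)
  have hTq : ∀ ε, 0 < ε → (Tε ε ⟨qPoly d, q_mem d hd⟩ : ℝ[X]) = F ε := by
    intro ε hε
    ext k
    rw [diagMap_coeff]
    show (F ε).coeff k / (qPoly d).coeff k * (qPoly d).coeff k = (F ε).coeff k
    by_cases hk : k ≤ d ∧ k ≠ d - 1
    · exact div_mul_cancel₀ _ (q_coeff_ne d hd k hk.1 hk.2)
    · have h3 : (F ε).coeff k = 0 := by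
        rcases Nat.lt_or_ge d k with h5 | h5
        · exact coeff_eq_zero_of_natDegree_lt (lt_of_le_of_lt (hFε ε hε).1 h5)
        · have : k = d - 1 := by by_contra h6; exact hk ⟨h5, h6⟩
          rw [this]; exact (hFε ε hε).2.1
      rw [h3]; simp
  have hpres : ∀ ε, 0 < ε → Preserves (Tε ε) := by
    intro ε hε
    refine suff_main hd (Tε ε) _ (diagMap_diag d _) ?_ ?_
    · rw [hTq ε hε, rr_iff]; exact (hFε ε hε).2.2.1
    · rw [hTq ε hε]; exact (hFε ε hε).2.2.2
  refine splits_of_tendsto (l := nhdsWithin (0 : ℝ) (Set.Ioi 0)) (fun ε => (Tε ε g : ℝ[X])) _ ?_ ?_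
  · filter_upwards [self_mem_nhdsWithin] with ε hε
    exact (rr_iff _).mp (hpres ε hε g ((rr_iff _).mpr hg))
  · intro z
    simp only [aeval_sum' d _ (Tε _ g).2.1]
    rw [aeval_sum' d _ (T g).2.1]
    apply tendsto_finsetSum
    intro k hk
    refine Filter.Tendsto.mul_const _ ?_
    refine (Complex.continuous_ofReal.tendsto _).comp ?_
    simp only [Tε, diagMap_coeff]
    rw [hTc]
    by_cases hk1 : k = d - 1
    · rw [hk1, g.2.2]; simp
    · apply Filter.Tendsto.mul_const
      rw [mem_range] at hk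
      have h3 := q_coeff_ne d hd k (by omega) hk1
      have h4 : c k = P.coeff k / (qPoly d).coeff k := by rw [hPc]; field_simp
      rw [h4]
      exact (hF k).div_const _

/-- the sign condition on consecutive eigenvalues -/
lemma eig_sign {d : ℕ} (hd : 2 ≤ d) (T : V d →ₗ[ℝ] V d) (c : ℕ → ℝ) (hT : DiagonalWith T c)
    (hP : Preserves T) (k : ℕ) (hk : k + 2 ≤ d - 2) : 0 ≤ c k * c (k + 2) := by
  by_cases h0 : c k = 0
  · rw [h0]; simp
  by_cases h2 : c (k + 2) = 0
  · rw [h2]; simp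
  have hmem : (X ^ (k + 2) - X ^ k : ℝ[X]) ∈ V d := by
    constructor
    · show (X ^ (k + 2) - X ^ k : ℝ[X]).natDegree ≤ d
      refine (natDegree_sub_le _ _).trans ?_
      rw [natDegree_X_pow, natDegree_X_pow]
      omega
    · show (X ^ (k + 2) - X ^ k : ℝ[X]).coeff (d - 1) = 0
      rw [coeff_sub, coeff_X_pow, coeff_X_pow, if_neg (by omega), if_neg (by omega), sub_zero]
  set g : V d := ⟨_, hmem⟩ with hg
  have hgs : (X ^ (k + 2) - X ^ k : ℝ[X]).Splits := by
    have e : (X ^ (k + 2) - X ^ k : ℝ[X]) = X ^ k * ((X - C 1) * (X - C (-1))) := by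
      simp only [C_neg, C_1]
      ring
    rw [e]
    exact (Splits.X_pow k).mul ((Splits.X_sub_C 1).mul (Splits.X_sub_C (-1)))
  have h3 := (rr_iff _).mp (hP g ((rr_iff _).mpr hgs))
  have hc := T_coeff hd T c hT g
  have hck : (T g : ℝ[X]).coeff k = - c k := by
    rw [hc]
    show c k * (X ^ (k + 2) - X ^ k : ℝ[X]).coeff k = _
    rw [coeff_sub, coeff_X_pow, coeff_X_pow, if_neg (by omega), if_pos rfl]
    ring
  have hck1 : (T g : ℝ[X]).coeff (k + 1) = 0 := by
    rw [hc]
    show c (k + 1) * (X ^ (k + 2) - X ^ k : ℝ[X]).coeff (k + 1) = _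
    rw [coeff_sub, coeff_X_pow, coeff_X_pow, if_neg (by omega), if_neg (by omega)]
    ring
  have hck2 : (T g : ℝ[X]).coeff (k + 2) = c (k + 2) := by
    rw [hc]
    show c (k + 2) * (X ^ (k + 2) - X ^ k : ℝ[X]).coeff (k + 2) = _
    rw [coeff_sub, coeff_X_pow, coeff_X_pow, if_pos rfl, if_neg (by omega)]
    ring
  have hnd : k < (T g : ℝ[X]).natDegree := by
    have := le_natDegree_of_ne_zero (p := (T g : ℝ[X])) (n := k + 2) (by rw [hck2]; exact h2)
    omega
  have h4 := crit _ h3 k (by rw [hck]; exact neg_ne_zero.mpr h0) hck1 hnd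
  rw [hck, hck2] at h4
  linarith

lemma coeff_sign {d : ℕ} (hd : 2 ≤ d) (T : V d →ₗ[ℝ] V d) (c : ℕ → ℝ) (hT : DiagonalWith T c)
    (hP : Preserves T) (k : ℕ) (hk : k + 2 ≤ d - 2) :
    0 ≤ (T ⟨qPoly d, q_mem d hd⟩ : ℝ[X]).coeff k *
      (T ⟨qPoly d, q_mem d hd⟩ : ℝ[X]).coeff (k + 2) := by
  rw [T_coeff hd T c hT, T_coeff hd T c hT]
  have h1 := eig_sign hd T c hT hP k hk
  have h2 := q_coeff_pos d hd k hk
  show 0 ≤ c k * (qPoly d).coeff k * (c (k + 2) * (qPoly d).coeff (k + 2))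
  have h3 := mul_nonneg h1 h2.le
  linarith

/-- **Main theorem.** Let `d ≥ 2` and `T` a diagonal map of `V_d` with eigenvalues `c k`.
(1) If `c d ≠ 0`, then `T` preserves real-rootedness on `V_d` iff `T q_d` is real-rooted and `d - 1`
of its zeros have the same sign (zero being of both signs).
(2) If also `c 0 ≠ 0`, the same holds with strict signs.
(3) If `c d = 0` (then `T q_d` has degree at most `d - 2`, so never `d - 1` zeros), then `T`
preserves real-rootedness iff `T q_d` is real-rooted and all its zeros have the same sign.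
(4) For every `d` there is a `T` as in (3) preserving real-rootedness with `T q_d` a nonzero
constant. -/
theorem result : ∀ (d : ℕ) (hd : 2 ≤ d),
    (∀ (T : V d →ₗ[ℝ] V d) (c : ℕ → ℝ), DiagonalWith T c →
      (c d ≠ 0 → (Preserves T ↔ RealRooted (T ⟨qPoly d, q_mem d hd⟩ : ℝ[X]) ∧
        SameSign (d - 1) (T ⟨qPoly d, q_mem d hd⟩ : ℝ[X]))) ∧
      (c d ≠ 0 → c 0 ≠ 0 → (Preserves T ↔ RealRooted (T ⟨qPoly d, q_mem d hd⟩ : ℝ[X]) ∧
        StrictSameSign (d - 1) (T ⟨qPoly d, q_mem d hd⟩ : ℝ[X]))) ∧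
      (c d = 0 → (T ⟨qPoly d, q_mem d hd⟩ : ℝ[X]).natDegree ≤ d - 2 ∧
        (Preserves T ↔ RealRooted (T ⟨qPoly d, q_mem d hd⟩ : ℝ[X]) ∧
          SameSign (T ⟨qPoly d, q_mem d hd⟩ : ℝ[X]).natDegree
            (T ⟨qPoly d, q_mem d hd⟩ : ℝ[X])))) ∧
    (∃ (T : V d →ₗ[ℝ] V d) (c : ℕ → ℝ), DiagonalWith T c ∧ Preserves T ∧
      ∃ a : ℝ, a ≠ 0 ∧ (T ⟨qPoly d, q_mem d hd⟩ : ℝ[X]) = C a) := by
  intro d hd
  refine ⟨?_, ?_⟩
  · intro T c hT
    have hmem := (T ⟨qPoly d, q_mem d hd⟩).2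
    have hc := T_coeff hd T c hT ⟨qPoly d, q_mem d hd⟩
    have hqd : (qPoly d).coeff d = 1 := by rw [q_coeff d hd d le_rfl]; simp
    have hPd : (T ⟨qPoly d, q_mem d hd⟩ : ℝ[X]).coeff d = c d := by
      rw [hc]; show c d * (qPoly d).coeff d = c d; rw [hqd, mul_one]
    have hrr : Preserves T → RealRooted (T ⟨qPoly d, q_mem d hd⟩ : ℝ[X]) :=
      fun h => h _ ((rr_iff _).mpr (q_splits d))
    have main : c d ≠ 0 → (Preserves T ↔ RealRooted (T ⟨qPoly d, q_mem d hd⟩ : ℝ[X]) ∧
        SameSign (d - 1) (T ⟨qPoly d, q_mem d hd⟩ : ℝ[X])) := by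
      intro hcd
      constructor
      · intro h
        refine ⟨hrr h, ?_⟩
        exact nec_main _ ((rr_iff _).mp (hrr h)) d hd hmem.1 (by rw [hPd]; exact hcd) hmem.2
          (coeff_sign hd T c hT h)
      · rintro ⟨h1, h2⟩
        exact suff_main hd T c hT h1 h2
    refine ⟨main, ?_, ?_⟩
    · intro hcd hc0
      rw [main hcd]
      have hP0 : (T ⟨qPoly d, q_mem d hd⟩ : ℝ[X]).coeff 0 ≠ 0 := by
        rw [hc]
        exact mul_ne_zero hc0 (q_coeff_ne d hd 0 (by omega) (by omega))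
      have hne : ∀ r ∈ (T ⟨qPoly d, q_mem d hd⟩ : ℝ[X]).roots, r ≠ 0 := by
        intro r hr h0
        have h1 := (mem_roots'.mp hr).2
        rw [h0, IsRoot.def, ← coeff_zero_eq_eval_zero] at h1
        exact hP0 h1
      have e1 : (T ⟨qPoly d, q_mem d hd⟩ : ℝ[X]).roots.filter (fun x => 0 ≤ x) =
          (T ⟨qPoly d, q_mem d hd⟩ : ℝ[X]).roots.filter (fun x => 0 < x) := by
        apply Multiset.filter_congr
        intro r hr
        exact ⟨fun h => lt_of_le_of_ne h (Ne.symm (hne r hr)), le_of_lt⟩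
      have e2 : (T ⟨qPoly d, q_mem d hd⟩ : ℝ[X]).roots.filter (fun x => x ≤ 0) =
          (T ⟨qPoly d, q_mem d hd⟩ : ℝ[X]).roots.filter (fun x => x < 0) := by
        apply Multiset.filter_congr
        intro r hr
        exact ⟨fun h => lt_of_le_of_ne h (hne r hr), le_of_lt⟩
      unfold SameSign StrictSameSign
      rw [e1, e2]
    · intro hcd
      have hdeg : (T ⟨qPoly d, q_mem d hd⟩ : ℝ[X]).natDegree ≤ d - 2 := by
        rw [natDegree_le_iff_coeff_eq_zero]
        intro k hk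
        rcases Nat.lt_or_ge d k with h1 | h1
        · exact coeff_eq_zero_of_natDegree_lt (lt_of_le_of_lt hmem.1 h1)
        · by_cases h2 : k = d
          · rw [h2, hPd, hcd]
          · rw [show k = d - 1 by omega]; exact hmem.2
      refine ⟨hdeg, ?_⟩
      constructor
      · intro h
        refine ⟨hrr h, ?_⟩
        exact nec_deg _ ((rr_iff _).mp (hrr h))
          (fun k hk => coeff_sign hd T c hT h k (by omega))
      · rintro ⟨h1, h2⟩
        exact suff_deg hd T c hT hcd h1 h2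
  · refine ⟨diagMap d (fun k => if k = 0 then 1 else 0), _, diagMap_diag d _, ?_, ?_⟩
    · intro g _
      have e : (diagMap d (fun k => if k = 0 then 1 else 0) g : ℝ[X]) = C ((g : ℝ[X]).coeff 0) := by
        ext k
        rw [diagMap_coeff, coeff_C]
        split_ifs with h
        · rw [h, one_mul]
        · rw [zero_mul]
      rw [e, rr_iff]
      exact Splits.C _
    · refine ⟨(qPoly d).coeff 0, q_coeff_ne d hd 0 (by omega) (by omega), ?_⟩
      ext k
      rw [diagMap_coeff, coeff_C]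
      split_ifs with h
      · rw [h, one_mul]
      · rw [zero_mul]

end Pool.Agent.Results.MP_31565c_an.TraceZeroPreservers
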